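import Pool.Agent.Helper35.HSF.StG

/-!
Project HSF (MP_925021_gt): module RPT (the hypersurfaces are round).
-/

set_option autoImplicit false

namespace Helper39.HSF

open Helper35.HSF Helper35.MS Helper35.PI Helper35.PI2 Helper32.CL
open scoped ContDiff Manifold Topology ENNReal BigOperators
open MeasureTheory Set Filter

private theorem dist0 {E : Type} [NormedAddCommGroup E] [InnerProductSpace ℝ E] (D v : E)
    (σ η : ℝ) (hσ : 0 < σ) (hη : 0 < η) (hη1 : η ≤ 1 / 2) (hv : ‖v‖ = 1)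
    (h1 : (1 - η) * ‖D‖ ^ 2 ≤ 2 * σ * (inner ℝ D v : ℝ)) :
    ‖D - σ • v‖ ^ 2 ≤ (1 + 16 * η) * σ ^ 2 := by
  have hi : (inner ℝ D v : ℝ) ≤ ‖D‖ := by
    have h := real_inner_le_norm D v
    rwa [hv, mul_one] at h
  have hD0 : 0 ≤ ‖D‖ := norm_nonneg D
  have hD : ‖D‖ ≤ 4 * σ := by
    by_contra hc
    push Not at hc
    have h2 : 2 * σ * (inner ℝ D v : ℝ) ≤ 2 * σ * ‖D‖ :=
      mul_le_mul_of_nonneg_left hi (by linarith)
    have h3 : 1 / 2 * ‖D‖ ^ 2 ≤ (1 - η) * ‖D‖ ^ 2 :=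
      mul_le_mul_of_nonneg_right (by linarith) (sq_nonneg _)
    have h4 : 4 * σ * ‖D‖ < ‖D‖ * ‖D‖ := mul_lt_mul_of_pos_right hc (by linarith)
    nlinarith
  have hD2 : ‖D‖ ^ 2 ≤ (4 * σ) ^ 2 := pow_le_pow_left₀ hD0 hD 2
  have e : ‖D - σ • v‖ ^ 2 = ‖D‖ ^ 2 - 2 * σ * (inner ℝ D v : ℝ) + σ ^ 2 := by
    rw [norm_sub_sq_real, inner_smul_right, norm_smul, hv, mul_one, Real.norm_eq_abs, sq_abs]
    ring
  rw [e]
  have h5 : η * ‖D‖ ^ 2 ≤ η * (4 * σ) ^ 2 := mul_le_mul_of_nonneg_left hD2 hη.le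
  nlinarith

theorem hRPT (hBAL : StBAL) (hFZP : StFZP) (hEVF : StEVF) (hHTR : StHTR) (hSMF : StSMF) :
    StRPT := by
  intro n hn M _ _ _ _ _ _ T F ν ts ε x C α hX η hη
  have hd := hX.d
  have hfl := hd.fl
  obtain ⟨δ, hδ⟩ : ∃ δ : ℝ, δ = min (1 / 2) (η ^ 2 / 16) := ⟨_, rfl⟩
  have hδ0 : 0 < δ := by rw [hδ]; exact lt_min (by norm_num) (by positivity)
  have hδ1 : δ ≤ 1 / 2 := by rw [hδ]; exact min_le_left _ _
  have hδ2 : 16 * δ ≤ η ^ 2 := by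
    have : δ ≤ η ^ 2 / 16 := by rw [hδ]; exact min_le_right _ _
    linarith
  obtain ⟨t₂, ht₂, hB⟩ := hBAL n hn M T F ν ts ε x C α hX δ hδ0 hδ1
  refine ⟨t₂, ht₂, fun t ht z => ?_⟩
  have hn0 : (0 : ℝ) < n := by
    have : (2 : ℝ) ≤ n := by exact_mod_cast hn
    linarith
  have htT : 0 < T - t := by linarith [ht.2]
  have hts : t ∈ Ico ts T := ⟨ht₂.1.trans ht.1, ht.2⟩
  have ht0 : 0 < t := lt_of_lt_of_le hd.ts0.1 hts.1
  have htJ : t ∈ Ioo 0 T := ⟨ht0, ht.2⟩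
  obtain ⟨σ, hσ⟩ : ∃ σ, σ = Real.sqrt (2 * n * (T - t)) := ⟨_, rfl⟩
  have hσ0 : 0 < σ := by rw [hσ]; exact Real.sqrt_pos.mpr (by positivity)
  have hσ2 : σ ^ 2 = 2 * n * (T - t) := by rw [hσ]; exact Real.sq_sqrt (by positivity)
  have hBt := hB t ht
  rw [← hσ] at hBt ⊢
  obtain ⟨p, hp⟩ : ∃ p, p = F z t + σ • ν z t := ⟨_, rfl⟩
  rw [← hp]
  have hνz : ‖ν z t‖ = 1 := hfl.nν z t htJ
  have hstart : ∀ y, ‖F y t - p‖ ^ 2 ≤ (1 + 16 * δ) * σ ^ 2 := by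
    intro y
    have h := dist0 (F y t - F z t) (ν z t) σ δ hσ0 hδ0 hδ1 hνz (hBt y z).1
    rw [hp, ← sub_sub]
    exact h
  -- the maximum principle
  have key : ∀ w₀ : ℝ, 0 < w₀ → ∀ t' ∈ Ico t T,
      ‖F z t' - p‖ ^ 2 + (2 * n * (t' - t) - (1 + 16 * δ) * σ ^ 2 - w₀ * (1 + t' - t)) < 0 := by
    intro w₀ hω t' ht'
    obtain ⟨a, ha⟩ : ∃ a : ℝ → ℝ, a = fun τ => 2 * n * (τ - t) - (1 + 16 * δ) * σ ^ 2
      - w₀ * (1 + τ - t) := ⟨_, rfl⟩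
    have hac : ContDiff ℝ ∞ a := by rw [ha]; fun_prop
    have had : ∀ τ, deriv a τ = 2 * n - w₀ := by
      intro τ
      rw [ha]
      have h1 : HasDerivAt (fun τ : ℝ => 2 * n * (τ - t) - (1 + 16 * δ) * σ ^ 2
          - w₀ * (1 + τ - t)) (2 * n * 1 - w₀ * 1) τ := by
        have e1 : HasDerivAt (fun τ : ℝ => τ - t) 1 τ := (hasDerivAt_id τ).sub_const t
        have e2 : HasDerivAt (fun τ : ℝ => 1 + τ - t) 1 τ :=
          ((hasDerivAt_id τ).const_add 1).sub_const t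
        exact ((e1.const_mul (2 * (n : ℝ))).sub_const _).sub (e2.const_mul w₀)
      rw [h1.deriv]
      ring
    have himm := hfl.mcf.toIsImmJ
    have hu : SmJ n (Ioo 0 T) (fun q t => ‖F q t - p‖ ^ 2) :=
      (hSMF n (n + 2) M (Ioo 0 T) F himm).2.2.2.2.2.2.1 p
    have hv := (hHTR n (n + 2) M (Ioo 0 T) F himm _ _ hu hu).2.2.2 a hac.contDiffOn
    have hw := (hHTR n (n + 2) M (Ioo 0 T) F himm _ _ hu hv.1).2.1 1 1
    have hJ : Icc t t' ⊆ Ioo 0 T := fun τ hτ =>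
      ⟨lt_of_lt_of_le ht0 hτ.1, lt_of_le_of_lt hτ.2 ht'.2⟩
    have hres := hFZP n (n + 2) M (Ioo 0 T) F hfl.mcf
      (fun q t => 1 * ‖F q t - p‖ ^ 2 + 1 * a t) t t' hw.1 hJ ?_ ?_ z t'
      (right_mem_Icc.mpr ht'.1)
    · rw [ha] at hres
      simp only [one_mul] at hres
      exact hres
    · intro q
      rw [ha]
      have := hstart q
      simp only [one_mul, sub_self, mul_zero, add_sub_cancel_right, mul_one]
      linarith
    · intro q τ hτ _ _ _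
      have hτJ : τ ∈ Ioo 0 T := hJ ⟨hτ.1.le, hτ.2⟩
      rw [(hw.2 q τ hτJ).2, (hv.2 q τ hτJ).2, had]
      have hE := (hEVF n (by omega) M (Ioo 0 T) F ν hfl).2.2 q τ hτJ
      rw [hE.2.2.2.2.2.1 p]
      linarith
  -- the limit
  have hFlim : Tendsto (fun t' => F z t') (𝓝[<] T) (𝓝 x) := by
    rw [tendsto_iff_norm_sub_tendsto_zero]
    have h1 : Tendsto (fun t' : ℝ => C * Real.sqrt (T - t')) (𝓝[<] T) (𝓝 0) := by
      have h2 : Continuous (fun t' : ℝ => C * Real.sqrt (T - t')) := by fun_prop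
      have h3 := h2.tendsto T
      simp only [sub_self, Real.sqrt_zero, mul_zero] at h3
      exact h3.mono_left nhdsWithin_le_nhds
    refine squeeze_zero' (Eventually.of_forall fun _ => norm_nonneg _) ?_ h1
    have h4 : Ioo t T ∈ 𝓝[<] T := Ioo_mem_nhdsLT ht.2
    filter_upwards [h4] with t' ht'
    exact hX.li t' ⟨hts.1.trans ht'.1.le, ht'.2⟩ z
  have hle : ∀ w₀ : ℝ, 0 < w₀ → ‖x - p‖ ^ 2 +
      (2 * n * (T - t) - (1 + 16 * δ) * σ ^ 2 - w₀ * (1 + T - t)) ≤ 0 := by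
    intro w₀ hω
    have h1 : Tendsto (fun t' => ‖F z t' - p‖ ^ 2 +
        (2 * n * (t' - t) - (1 + 16 * δ) * σ ^ 2 - w₀ * (1 + t' - t))) (𝓝[<] T)
        (𝓝 (‖x - p‖ ^ 2 + (2 * n * (T - t) - (1 + 16 * δ) * σ ^ 2 - w₀ * (1 + T - t)))) := by
      refine ((hFlim.sub_const p).norm.pow 2).add ?_
      have h2 : Continuous (fun t' : ℝ =>
          2 * n * (t' - t) - (1 + 16 * δ) * σ ^ 2 - w₀ * (1 + t' - t)) := by fun_prop
      exact (h2.tendsto T).mono_left nhdsWithin_le_nhds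
    refine le_of_tendsto h1 ?_
    have h4 : Ioo t T ∈ 𝓝[<] T := Ioo_mem_nhdsLT ht.2
    filter_upwards [h4] with t' ht'
    exact (key w₀ hω t' ⟨ht'.1.le, ht'.2⟩).le
  have hfin : ‖x - p‖ ^ 2 ≤ 16 * δ * σ ^ 2 := by
    by_contra hc
    push Not at hc
    obtain ⟨c, hcc⟩ : ∃ c, c = ‖x - p‖ ^ 2 - 16 * δ * σ ^ 2 := ⟨_, rfl⟩
    have hc0 : 0 < c := by rw [hcc]; linarith
    have h1 := hle (c / (2 * (1 + T - t))) (by
      have : 0 < 1 + T - t := by linarith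
      positivity)
    have h2 : c / (2 * (1 + T - t)) * (1 + T - t) = c / 2 := by
      have : 1 + T - t ≠ 0 := by
        have : 0 < 1 + T - t := by linarith
        exact this.ne'
      field_simp
    rw [h2, ← hσ2] at h1
    linarith
  have h1 : ‖p - x‖ ≤ η * σ := by
    rw [norm_sub_rev]
    have h2 : ‖x - p‖ ^ 2 ≤ (η * σ) ^ 2 := by
      rw [mul_pow]
      exact hfin.trans (mul_le_mul_of_nonneg_right hδ2 (sq_nonneg σ))
    exact le_of_sq_le_sq h2 (by positivity)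
  refine ⟨h1, ?_⟩
  have h3 := abs_norm_sub_norm_le (F z t - x) (-(σ • ν z t))
  rw [norm_neg, norm_smul, hνz, mul_one, Real.norm_eq_abs, abs_of_pos hσ0] at h3
  refine h3.trans (le_trans (le_of_eq ?_) h1)
  congr 1
  rw [hp]
  abel

end Helper39.HSF

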